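import Mathlib
import Pool.Agent.Lib.MP_0016c7_nt.CdlFin2
import Pool.Agent.Lib.MP_0016c7_nt.EvFin
import Pool.Agent.Lib.MP_0016c7_nt.CdlSW

/-!
The criteria of Fekete and Chowla become necessary and sufficient when one passes from a primitive
quadratic character to the characters it induces, and with the least possible number of summations.

Let `χ` be a nontrivial quadratic character and `ψ` the primitive character inducing it, of
conductor `q`; put `k = 1` if `χ` is odd and `k = 2` if `χ` is even. Then `L(s, χ)` is positive on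
`(0, 1)` if and only if for some `Q ≠ 0` all `k`-fold iterated partial sums of the character modulo
`q * Q` induced by `ψ` are nonnegative (the partial sums themselves if `χ` is odd, the sums of the
partial sums if `χ` is even); if and only if this holds for every product `Q` of the primes `p ≤ Y`
with `ψ p = -1`, `Y` large enough. No smaller exponent can be used. Further equivalent conditions
are that some iterated sums, for some exponent, are nonnegative; that the Fekete polynomial of some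
induced character has no zero in `(0, 1)`; and that for every `σ` in `(0, 1)` some induced character
has nonnegative partial sums of its Dirichlet series at `σ`.
-/

open Filter Pool.Agent.MP0016c7.Ros Pool.Agent.MP0016c7.Fek

theorem Pool.Agent.Results.MP_0016c7_nt.FeketeInduced.result
    (N : ℕ) [NeZero N] (χ : DirichletCharacter ℂ N) (hne : χ ≠ 1) (hsq : χ ^ 2 = 1) :
    List.TFAE
      [∀ s : ℝ, 0 < s → s < 1 → (χ.LFunction s).im = 0 ∧ 0 < (χ.LFunction s).re,
        ∃ Q : ℕ, Q ≠ 0 ∧ ∃ k : ℕ, (χ.Odd → k = 1) ∧ (χ.Even → k = 2) ∧ ∀ n : ℕ,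
          0 ≤ iterSum (indChar χ.primitiveCharacter Q) k n,
        ∀ᶠ Y : ℕ in atTop, ∃ k : ℕ, (χ.Odd → k = 1) ∧ (χ.Even → k = 2) ∧ ∀ n : ℕ,
          0 ≤ iterSum (indChar χ.primitiveCharacter (inertProduct χ.primitiveCharacter Y)) k n,
        ∃ Q : ℕ, Q ≠ 0 ∧ ∃ k : ℕ, ∀ n : ℕ,
          0 ≤ iterSum (indChar χ.primitiveCharacter Q) k n,
        ∃ Q : ℕ, Q ≠ 0 ∧ ∀ x : ℝ, 0 < x → x < 1 →
          (feketePoly χ.primitiveCharacter Q).eval x ≠ 0,
        ∀ᶠ Y : ℕ in atTop, ∀ x : ℝ, 0 < x → x < 1 →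
          0 < (feketePoly χ.primitiveCharacter (inertProduct χ.primitiveCharacter Y)).eval x,
        ∀ σ : ℝ, 0 < σ → σ < 1 → ∃ Q : ℕ, Q ≠ 0 ∧ ∀ x : ℕ,
          0 ≤ truncSum χ.primitiveCharacter Q σ x] ∧
    ∀ Q : ℕ, Q ≠ 0 → ∀ k : ℕ, (∀ n : ℕ, 0 ≤ iterSum (indChar χ.primitiveCharacter Q) k n) →
      1 ≤ k ∧ (χ.Even → 2 ≤ k) := by
  have hq := cond_neZero χ
  have hne' := prim_ne_one χ hne
  have hsq' := prim_sq χ hsq
  have hN := modulus_ne_one hne'
  have key : ∀ Q : ℕ, Q ≠ 0 → ((∀ x : ℝ, 0 < x → x < 1 →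
      (feketePoly χ.primitiveCharacter Q).eval x ≠ 0) ↔ ∃ k : ℕ, ∀ n : ℕ,
      0 ≤ iterSum (indChar χ.primitiveCharacter Q) k n) := by
    intro Q hQ
    have : NeZero (χ.conductor * Q) := ⟨Nat.mul_ne_zero (NeZero.ne _) hQ⟩
    exact fekete_iff_chowla hN
  have hoe : ¬ (χ.Odd ∧ χ.Even) := by
    rintro ⟨ho, he⟩
    have h1 : χ (-1) = -1 := ho
    have h2 : χ (-1) = 1 := he
    rw [h1] at h2
    norm_num at h2
  refine ⟨?_, fun Q hQ k hk => ?_⟩
  · tfae_have 1 → 3 := by
      intro h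
      have hL : ∀ s : ℝ, 0 < s → s < 1 → 0 < Lr χ.primitiveCharacter s :=
        fun s hs hs1 => (Lr_prim χ hne hsq hs).mp (h s hs hs1).2
      rcases χ.even_or_odd with he | ho
      · filter_upwards [ev_forward_two swd χ.primitiveCharacter_isPrimitive hne' hsq'
          (prim_even χ he) hL] with Y hY
        exact ⟨2, fun ho => absurd ⟨ho, he⟩ hoe, fun _ => rfl, hY⟩
      · filter_upwards [cdl_forward swd χ.primitiveCharacter_isPrimitive hne' hsq'
          (prim_odd χ ho) hL] with Y hY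
        exact ⟨1, fun _ => rfl, fun he => absurd ⟨ho, he⟩ hoe, hY⟩
    tfae_have 3 → 2 := by
      intro h
      obtain ⟨Y, hY⟩ := h.exists
      exact ⟨_, inertProduct_ne_zero _ Y, hY⟩
    tfae_have 2 → 4 := by
      rintro ⟨Q, hQ, k, _, _, hk⟩
      exact ⟨Q, hQ, k, hk⟩
    tfae_have 4 → 5 := by
      rintro ⟨Q, hQ, h⟩
      exact ⟨Q, hQ, (key Q hQ).mpr h⟩
    tfae_have 3 → 6 := by
      intro h
      filter_upwards [h] with Y hY x hx0 hx1
      obtain ⟨k, _, _, hk⟩ := hY
      have hQ := inertProduct_ne_zero χ.primitiveCharacter Y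
      have : NeZero (χ.conductor * inertProduct χ.primitiveCharacter Y) :=
        ⟨Nat.mul_ne_zero (NeZero.ne _) hQ⟩
      exact fekete_pos_of_ne hN ((key _ hQ).mpr ⟨k, hk⟩) hx0 hx1
    tfae_have 6 → 5 := by
      intro h
      obtain ⟨Y, hY⟩ := h.exists
      exact ⟨_, inertProduct_ne_zero _ Y, fun x hx0 hx1 => (hY x hx0 hx1).ne'⟩
    tfae_have 5 → 1 := by
      rintro ⟨Q, hQ, h⟩ s hs hs1
      have : NeZero (χ.conductor * Q) := ⟨Nat.mul_ne_zero (NeZero.ne _) hQ⟩
      refine ⟨LFunction_im hne hsq hs, (Lr_prim χ hne hsq hs).mpr ?_⟩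
      exact fek_back hQ hne' hsq' (fun x hx0 hx1 => fekete_pos_of_ne hN h hx0 hx1) hs hs1.le
    tfae_have 1 → 7 := by
      intro h σ h0 h1
      obtain ⟨Y, hY⟩ := (forward_eventually hne' hsq' h0 h1 fun s hs hs1 =>
        (Lr_prim χ hne hsq (by linarith)).mp (h s (by linarith) hs1).2).exists
      refine ⟨inertProduct χ.primitiveCharacter Y, inertProduct_ne_zero _ Y, fun x => ?_⟩
      rcases Nat.eq_zero_or_pos x with rfl | hx
      · simp [truncSum]
      · exact zero_le_one.trans (hY x hx)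
    tfae_have 7 → 1 := by
      intro h s hs0 hs1
      obtain ⟨Q, hQ, hQ'⟩ := h (s / 2) (by linarith) (by linarith)
      refine ⟨LFunction_im hne hsq hs0, (Lr_prim χ hne hsq hs0).mpr ?_⟩
      exact back_pos hQ hne' hsq' (by linarith) (fun x _ => hQ' x) (by linarith)
    tfae_finish
  · obtain ⟨h1, h2⟩ := exponent_lower hQ hne' hk
    exact ⟨h1, fun he => h2 (prim_even χ he)⟩
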