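import Mathlib
import Pool.Agent.Lib.MP_0016c7_nt.Rz.W5
import Pool.Agent.Lib.MP_0016c7_nt.Rz2.Qls

set_option autoImplicit false

/-!
For every `A ≥ 0` and every large `Q`, all but a proportion `min (0.126) ((A + 3) e ^ (-A) / 2)` of
the primitive quadratic Dirichlet characters `χ` of conductor `q ≤ Q` have the property that
`L(s, χ)` is positive at all `s` in `(0, 1)` with `|s - 1 / 2| ≥ A / log q`, for the character
itself and for all characters induced by it. For `A = 0` this is the whole interval `(0, 1)`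
for at least 87.4 percent of the characters. The same holds, uniformly, if the characters are
restricted by any condition on `gcd(q, 8)`, `χ(-1)` and `χ(2)`.
-/

/-- For every `A ≥ 0`, every large `Q` and every set `S` of triples, at least a proportion
`1 - min (0.126) ((A + 3) e ^ (-A) / 2)` of the primitive quadratic characters `χ` of conductor
`q` at most `Q` with `(gcd(q, 8), χ(-1), χ(2)) ∈ S` satisfy `L(s, χ') > 0` for all `0 < s < 1` with
`|s - 1 / 2| log q ≥ A` and all characters `χ'` induced by `χ`. -/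
theorem Pool.Agent.Results.MP_0016c7_nt.MostlyNoRealZerosAll.result (A : ℝ) (hA : 0 ≤ A) :
    ∃ Q₀ : ℕ, ∀ Q : ℕ, Q₀ ≤ Q → ∀ S : Set (ℕ × ℂ × ℂ),
      (1 - min (126 / 1000) ((A + 3) / 2 * Real.exp (-A))) *
        Nat.card {x : (q : ℕ) × DirichletCharacter ℂ q |
          ((0 < x.1 ∧ x.1 ≤ Q) ∧ x.2.IsPrimitive ∧ x.2 ^ 2 = 1 ∧ x.2 ≠ 1) ∧
          (Nat.gcd x.1 8, x.2 (-1), x.2 2) ∈ S} ≤
      Nat.card {x : (q : ℕ) × DirichletCharacter ℂ q |
          (((0 < x.1 ∧ x.1 ≤ Q) ∧ x.2.IsPrimitive ∧ x.2 ^ 2 = 1 ∧ x.2 ≠ 1) ∧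
            (Nat.gcd x.1 8, x.2 (-1), x.2 2) ∈ S) ∧
          ∀ (N : ℕ) (_ : NeZero N) (hN : x.1 ∣ N) (s : ℝ), 0 < s → s < 1 →
            A ≤ |s - 1 / 2| * Real.log x.1 →
            ((DirichletCharacter.changeLevel hN x.2).LFunction s).im = 0 ∧
              0 < ((DirichletCharacter.changeLevel hN x.2).LFunction s).re} :=
  haveI := Pool.Agent.MP0016c7.Rz.qlsHyp
  Pool.Agent.MP0016c7.Rz.main_window A hA
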