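import Mathlib
import Pool.Agent.Lib.MP_0016c7_nt.PS.Hand

set_option autoImplicit false

/-!
Real zeros of quadratic L-functions with prescribed splitting. There is `c > 0` such that, for
every large `Q` and EVERY finite set `T` of primes with product at most `Q ^ c`, prescribing in any
way the parity `χ(-1)` and the values `χ(p)`, `p ∈ T` (and `gcd(q, 8)`), leaves a family in which at
least 87.4 percent of the characters have `L(s, χ) > 0` for all `0 < s < 1`.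
-/

/-- There are `c > 0` and `Q₀` such that for all `Q ≥ Q₀` and all finite sets `T` of primes with
product at most `Q ^ c` the following holds. For every set `S` of triples, at least 87.4 percent
of the primitive quadratic characters `χ` of conductor `q ≤ Q` with
`(gcd(q, 8), χ(-1), (χ(p))_{p ∈ T}) ∈ S` satisfy `L(s, χ') > 0` for all `0 < s < 1` and all characters
`χ'` induced by `χ`. For every single sign `σ` and all values `e(p) ∈ {-1, 0, 1}`, `p ∈ T`, at least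
`0.874 * Q ^ (9/10)` primitive quadratic characters `χ` of conductor at most `Q` have `χ(-1) = σ`,
`χ(p) = e(p)` for all `p ∈ T`, and this property. -/
theorem Pool.Agent.Results.MP_0016c7_nt.PrescribedSplitting.result :
    ∃ c : ℝ, 0 < c ∧ ∃ Q₀ : ℕ, ∀ Q : ℕ, Q₀ ≤ Q →
    ∀ T : Finset ℕ, (∀ p ∈ T, p.Prime) → (∏ p ∈ T, (p : ℝ)) ≤ (Q : ℝ) ^ c →
    (∀ S : Set (ℕ × ℂ × (T → ℂ)),
      (874 / 1000 : ℝ) * Nat.card {x : (q : ℕ) × DirichletCharacter ℂ q |
          ((0 < x.1 ∧ x.1 ≤ Q) ∧ x.2.IsPrimitive ∧ x.2 ^ 2 = 1 ∧ x.2 ≠ 1) ∧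
          (Nat.gcd x.1 8, x.2 (-1), fun p : T => x.2 ((p : ℕ) : ZMod x.1)) ∈ S} ≤
        Nat.card {x : (q : ℕ) × DirichletCharacter ℂ q |
          (((0 < x.1 ∧ x.1 ≤ Q) ∧ x.2.IsPrimitive ∧ x.2 ^ 2 = 1 ∧ x.2 ≠ 1) ∧
            (Nat.gcd x.1 8, x.2 (-1), fun p : T => x.2 ((p : ℕ) : ZMod x.1)) ∈ S) ∧
          ∀ (N : ℕ) (_ : NeZero N) (hN : x.1 ∣ N) (s : ℝ), 0 < s → s < 1 →
            ((DirichletCharacter.changeLevel hN x.2).LFunction s).im = 0 ∧
              0 < ((DirichletCharacter.changeLevel hN x.2).LFunction s).re}) ∧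
    ∀ (σ : ℤ) (e : T → ℤ), (σ = 1 ∨ σ = -1) → (∀ p, e p = 0 ∨ e p = 1 ∨ e p = -1) →
      (874 / 1000 : ℝ) * (Q : ℝ) ^ (9 / 10 : ℝ) ≤
        Nat.card {x : (q : ℕ) × DirichletCharacter ℂ q |
          (((0 < x.1 ∧ x.1 ≤ Q) ∧ x.2.IsPrimitive ∧ x.2 ^ 2 = 1 ∧ x.2 ≠ 1) ∧
            x.2 (-1) = (σ : ℂ) ∧ ∀ p : T, x.2 ((p : ℕ) : ZMod x.1) = (e p : ℂ)) ∧
          ∀ (N : ℕ) (_ : NeZero N) (hN : x.1 ∣ N) (s : ℝ), 0 < s → s < 1 →
            ((DirichletCharacter.changeLevel hN x.2).LFunction s).im = 0 ∧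
              0 < ((DirichletCharacter.changeLevel hN x.2).LFunction s).re} :=
  Pool.Agent.MP0016c7.Rz.ps_hand
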