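import Mathlib
import Pool.Agent.Lib.MP_0016c7_nt.PC.FinD
import Pool.Agent.Lib.MP_0016c7_nt.PC.X.Fin

set_option autoImplicit false

/-!
Prime conductors. For every `A ≥ 0` and every large `Q`, all but a proportion
`min (0.449) (12 (A + 1) e ^ (-A))` of the primitive quadratic Dirichlet characters `χ` whose
conductor `q ≤ Q` is `p`, `4 p` or `8 p` for an odd prime `p` have the property that `L(s, χ)` is
positive at all `s` in `(0, 1)` with `|s - 1 / 2| ≥ A / log q`, for the character itself and for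
all characters induced by it. For `A = 0` this is the whole interval `(0, 1)` for at least
55.1 percent of the characters. The same holds, uniformly, if the characters are restricted by
any condition on `gcd(q, 8)` (prime conductors: `gcd(q, 8) = 1`), `χ(-1)` and `χ(2)`.
-/

/-- For every `A ≥ 0`, every large `Q` and every set `S` of triples, at least a proportion
`1 - min (0.449) (12 (A + 1) e ^ (-A))` of the primitive quadratic characters `χ` of conductor
`q = 2 ^ k p` at most `Q`, `p` an odd prime, with `(gcd(q, 8), χ(-1), χ(2)) ∈ S` satisfy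
`L(s, χ') > 0` for all `0 < s < 1` with `|s - 1 / 2| log q ≥ A` and all characters `χ'` induced
by `χ`. -/
theorem Pool.Agent.Results.MP_0016c7_nt.PrimeConductors.result (A : ℝ) (hA : 0 ≤ A) :
    ∃ Q₀ : ℕ, ∀ Q : ℕ, Q₀ ≤ Q → ∀ S : Set (ℕ × ℂ × ℂ),
      (1 - min (449 / 1000) (12 * (A + 1) * Real.exp (-A))) *
        Nat.card {x : (q : ℕ) × DirichletCharacter ℂ q |
          ((0 < x.1 ∧ x.1 ≤ Q) ∧ x.2.IsPrimitive ∧ x.2 ^ 2 = 1 ∧ x.2 ≠ 1) ∧
          (∃ p k : ℕ, p.Prime ∧ p ≠ 2 ∧ x.1 = 2 ^ k * p) ∧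
          (Nat.gcd x.1 8, x.2 (-1), x.2 2) ∈ S} ≤
      Nat.card {x : (q : ℕ) × DirichletCharacter ℂ q |
          (((0 < x.1 ∧ x.1 ≤ Q) ∧ x.2.IsPrimitive ∧ x.2 ^ 2 = 1 ∧ x.2 ≠ 1) ∧
            (∃ p k : ℕ, p.Prime ∧ p ≠ 2 ∧ x.1 = 2 ^ k * p) ∧
            (Nat.gcd x.1 8, x.2 (-1), x.2 2) ∈ S) ∧
          ∀ (N : ℕ) (_ : NeZero N) (hN : x.1 ∣ N) (s : ℝ), 0 < s → s < 1 →
            A ≤ |s - 1 / 2| * Real.log x.1 →
            ((DirichletCharacter.changeLevel hN x.2).LFunction s).im = 0 ∧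
              0 < ((DirichletCharacter.changeLevel hN x.2).LFunction s).re} :=
  Pool.Agent.MP0016c7.PC.main_prime_X Pool.Agent.MP0016c7.PC.jf_covP
    Pool.Agent.MP0016c7.PC.jf_fmP Pool.Agent.MP0016c7.PC.jf_zmP A hA
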